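import Mathlib
import Pool.Agent.V11332.RecHarm
import Pool.Agent.Results.MP_5a22fd_pr.BoundedDensity

namespace Pool.Agent.Results.MP_37d573_pr.AlwaysDiscontinuous

open MeasureTheory ProbabilityTheory Set Filter Topology
open Pool.Agent.V11332.RecHarm

variable {Ω : Type*} [MeasurableSpace Ω] {P : Measure Ω} {I : ℕ → Ω → ℝ}

/-! ### Size bias for the full series -/

lemma size_bias (h : Rec P I) {B : Set ℝ} (hB : MeasurableSet B) {b c : ℝ}
    (hb : ∀ x ∈ B, b ≤ x) (hb0 : 0 ≤ b) (hc0 : 0 ≤ c)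
    (hc : ∀ n : ℕ, 1 ≤ n → P.real {ω | X I (Ici 1) ω + 1 / ((n : ℝ) + 1) ∈ B} ≤ c) :
    b * P.real {ω | X I (Ici 1) ω ∈ B} ≤ c := by
  have hprob := h.prob
  set E : Set Ω := {ω | X I (Ici 1) ω ∈ B} with hE
  have hEm : MeasurableSet E := meas_X h _ hB
  have h1 : ENNReal.ofReal b * P E ≤ ENNReal.ofReal c := by
    calc ENNReal.ofReal b * P E = ∫⁻ _ in E, ENNReal.ofReal b ∂P := by
          rw [setLIntegral_const]
      _ ≤ ∫⁻ ω in E, ENNReal.ofReal (X I (Ici 1) ω) ∂P := by
          refine setLIntegral_mono' hEm fun ω hω => ENNReal.ofReal_le_ofReal (hb _ hω)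
      _ ≤ ∫⁻ ω in E, ∑' m : ℕ, ENNReal.ofReal
          ((Ici 1).indicator (fun m : ℕ => I m ω / ((m : ℝ) + 1)) m) ∂P := by
          refine lintegral_mono fun ω => ?_
          rw [X_eq_toReal h.val]
          exact ENNReal.ofReal_toReal_le
      _ = ∑' m : ℕ, ∫⁻ ω in E, ENNReal.ofReal
          ((Ici 1).indicator (fun m : ℕ => I m ω / ((m : ℝ) + 1)) m) ∂P := by
          refine lintegral_tsum fun m => ?_
          refine (Measurable.ennreal_ofReal ?_).aemeasurable
          by_cases hm : m ∈ Ici 1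
          · simp only [Set.indicator_of_mem hm]
            exact (h.meas m).div_const _
          · simp only [Set.indicator_of_notMem hm]
            exact measurable_const
      _ ≤ ∑' m : ℕ, ENNReal.ofReal
          ((Ici 1).indicator (fun m : ℕ => c * (1 / ((m : ℝ) * ((m : ℝ) + 1)))) m) := by
          refine ENNReal.tsum_le_tsum fun m => ?_
          by_cases hm : m ∈ Ici 1
          · simp only [Set.indicator_of_mem hm]
            have hm1 : 1 ≤ m := hm
            have hm0 : (0 : ℝ) < m := by exact_mod_cast hm1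
            have e1 : (fun ω => ENNReal.ofReal (I m ω / ((m : ℝ) + 1))) =
                {ω | I m ω = 1}.indicator (fun _ => ENNReal.ofReal (1 / ((m : ℝ) + 1))) := by
              funext ω
              rcases h.val m ω with h2 | h2
              · rw [Set.indicator_of_notMem (by simp only [Set.mem_ofPred_eq, h2]; norm_num), h2]
                simp
              · rw [Set.indicator_of_mem (by simp only [Set.mem_ofPred_eq, h2]), h2]
            have hms : MeasurableSet {ω | I m ω = 1} := h.meas m (measurableSet_singleton 1)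
            rw [e1, lintegral_indicator_const hms, Measure.restrict_apply hms]
            have e2 : P ({ω | I m ω = 1} ∩ E) =
                ENNReal.ofReal (P.real {ω | I m ω = 1 ∧ X I (Ici 1) ω ∈ B}) := by
              rw [ofReal_measureReal]; rfl
            rw [e2, ← ENNReal.ofReal_mul (by positivity)]
            refine ENNReal.ofReal_le_ofReal ?_
            have e3 := loo h (A := Ici 1) (n := m) hm hm1 hB
            have e4 := hc m hm1
            calc 1 / ((m : ℝ) + 1) * P.real {ω | I m ω = 1 ∧ X I (Ici 1) ω ∈ B}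
                ≤ 1 / ((m : ℝ) + 1) * (1 / (m : ℝ) * c) := by
                  refine mul_le_mul_of_nonneg_left (e3.trans ?_) (by positivity)
                  exact mul_le_mul_of_nonneg_left e4 (by positivity)
              _ = c * (1 / ((m : ℝ) * ((m : ℝ) + 1))) := by field_simp
          · simp only [Set.indicator_of_notMem hm]
            simp
      _ ≤ ENNReal.ofReal c := by
          rw [ENNReal.tsum_eq_iSup_nat]
          refine iSup_le fun K => ?_
          rw [← ENNReal.ofReal_sum_of_nonneg (fun m _ => Set.indicator_nonneg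
            (fun _ _ => by positivity) _)]
          refine ENNReal.ofReal_le_ofReal ?_
          have key : ∀ K : ℕ, ∑ m ∈ Finset.range (K + 1),
              (Ici 1).indicator (fun m : ℕ => c * (1 / ((m : ℝ) * ((m : ℝ) + 1)))) m =
              c * (1 - 1 / ((K : ℝ) + 1)) := by
            intro K
            induction K with
            | zero => simp
            | succ K ih =>
              rw [Finset.sum_range_succ, ih,
                Set.indicator_of_mem (show K + 1 ∈ Ici 1 from Nat.le_add_left _ _)]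
              push_cast
              field_simp
              ring
          rcases K with _ | K
          · simpa using hc0
          · rw [key K]
            have : 0 ≤ 1 / ((K : ℝ) + 1) := by positivity
            nlinarith
  have h2 := ENNReal.toReal_mono ENNReal.ofReal_ne_top h1
  rw [ENNReal.toReal_mul, ENNReal.toReal_ofReal hb0, ENNReal.toReal_ofReal hc0] at h2
  exact h2

/-! ### Lower bound near the left endpoint -/

lemma chain (h : Rec P I) {B : Set ℝ} (hB : MeasurableSet B) (M : ℕ) (hM : 2 ≤ M) :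
    2 / (M : ℝ) * P.real {ω | X I (Ici M) ω ∈ B} ≤ P.real {ω | X I (Ici 2) ω ∈ B} := by
  have hprob := h.prob
  induction M, hM using Nat.le_induction with
  | base => simp
  | succ M hM ih =>
    refine le_trans ?_ ih
    have h1 := split h (A := Ici (M + 1)) (n := M) (by simp) hB
    have h2 : insert M (Ici (M + 1)) = Ici M := by
      ext n
      simp only [mem_insert_iff, mem_Ici]
      omega
    rw [h2] at h1
    rw [h1]
    have hM0 : (0 : ℝ) < M := by exact_mod_cast (by omega : 0 < M)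
    have h3 : 0 ≤ 1 / ((M : ℝ) + 1) * P.real {ω | X I (Ici (M + 1)) ω + 1 / ((M : ℝ) + 1) ∈ B} :=
      mul_nonneg (by positivity) measureReal_nonneg
    have h4 : 2 / ((M + 1 : ℕ) : ℝ) = 2 / (M : ℝ) * (1 - 1 / ((M : ℝ) + 1)) := by
      push_cast
      field_simp
      ring
    rw [h4, mul_add]
    have h5 : 0 ≤ 2 / (M : ℝ) *
        (1 / ((M : ℝ) + 1) * P.real {ω | X I (Ici (M + 1)) ω + 1 / ((M : ℝ) + 1) ∈ B}) :=
      mul_nonneg (by positivity) h3
    linarith

lemma lower (h : Rec P I) {δ : ℝ} (hδ : 0 < δ) (hδ1 : δ < 1) :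
    δ / 3 ≤ P.real {ω | X I (Ici 2) ω ∈ Ico 0 δ} := by
  have hprob := h.prob
  set M := ⌈2 / δ⌉₊ with hM
  have h1 : 2 / δ ≤ M := Nat.le_ceil _
  have h2 : (M : ℝ) ≤ 2 / δ + 1 := (Nat.ceil_lt_add_one (by positivity)).le
  have h3 : (2 : ℝ) ≤ M := by
    refine le_trans ?_ h1
    rw [le_div_iff₀ hδ]; linarith
  have hM2 : 2 ≤ M := by exact_mod_cast h3
  have hM0 : (0 : ℝ) < M := by linarith
  refine le_trans ?_ (chain h measurableSet_Ico M hM2)
  have h4 := tail h (N := M) (by omega) hδ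
  have hms : MeasurableSet {ω | X I (Ici M) ω ∈ Ico 0 δ} := meas_X h _ measurableSet_Ico
  have h5 : {ω | X I (Ici M) ω ∈ Ico 0 δ}ᶜ = {ω | δ ≤ X I (Ici M) ω} := by
    ext ω
    have := X_nonneg h (Ici M) ω
    simp only [mem_Ico, mem_compl_iff, Set.mem_ofPred_eq, this, true_and, not_lt]
  have h6 := probReal_compl_eq_one_sub (μ := P) hms
  rw [h5] at h6
  have h7 : 1 / ((M : ℝ) * δ) ≤ 1 / 2 := by
    apply one_div_le_one_div_of_le (by norm_num)
    rw [div_le_iff₀ hδ] at h1
    exact h1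
  have h8 : 1 / 2 ≤ P.real {ω | X I (Ici M) ω ∈ Ico 0 δ} := by linarith
  calc δ / 3 ≤ 1 / (M : ℝ) := by
        rw [div_le_div_iff₀ (by norm_num) hM0]
        have : δ * M ≤ 2 + δ := by
          calc δ * M ≤ δ * (2 / δ + 1) := mul_le_mul_of_nonneg_left h2 hδ.le
            _ = 2 + δ := by field_simp
        linarith
    _ = 2 / (M : ℝ) * (1 / 2) := by ring
    _ ≤ _ := mul_le_mul_of_nonneg_left h8 (by positivity)

/-! ### Consequences of a continuous density -/

/-- `g` is a continuous density of `U = S - 1` on `(0,∞)`. -/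
structure Dens (P : Measure Ω) (I : ℕ → Ω → ℝ) (g : ℝ → ℝ) : Prop where
  nonneg : ∀ u, 0 ≤ g u
  cont : ∀ u, 0 < u → ContinuousAt g u
  upper : ∀ a b M, 0 < a → a ≤ b → 0 ≤ M → (∀ u ∈ Ico a b, g u ≤ M) →
    P.real {ω | X I (Ici 1) ω ∈ Ico a b} ≤ M * (b - a)
  lower : ∀ a b m, 0 < a → a ≤ b → 0 ≤ m → (∀ u ∈ Ico a b, m ≤ g u) →
    m * (b - a) ≤ P.real {ω | X I (Ici 1) ω ∈ Ico a b}

/-- Window difference. -/
noncomputable def sd (P : Measure Ω) (Y : Ω → ℝ) (y δ : ℝ) : ℝ :=
  P.real {ω | Y ω ∈ Ico y (y + δ)} - P.real {ω | Y ω ∈ Ico (y - δ) y}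

section
variable {g : ℝ → ℝ} (h : Rec P I) (hg : Dens P I g)
include h hg

omit h in
lemma tend_right {y : ℝ} (hy : 0 < y) :
    Tendsto (fun δ => P.real {ω | X I (Ici 1) ω ∈ Ico y (y + δ)} / δ) (𝓝[>] 0) (𝓝 (g y)) := by
  rw [Metric.tendsto_nhds]
  intro ε hε
  obtain ⟨η, hη, hcont⟩ := Metric.continuousAt_iff.1 (hg.cont y hy) (ε / 2) (by positivity)
  have h1 : ∀ᶠ δ in 𝓝[>] (0 : ℝ), δ ∈ Ioo 0 η := Ioo_mem_nhdsGT hη
  filter_upwards [h1] with δ hδ
  have hb : ∀ u ∈ Ico y (y + δ), |g u - g y| < ε / 2 := by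
    intro u hu
    have := @hcont u (by rw [Real.dist_eq, abs_lt]; constructor <;> linarith [hu.1, hu.2, hδ.1, hδ.2])
    rwa [Real.dist_eq] at this
  have e1 := hg.upper y (y + δ) (g y + ε / 2) hy (by linarith [hδ.1])
    (by linarith [hg.nonneg y]) (fun u hu => by linarith [(abs_lt.1 (hb u hu)).2])
  have e2 := hg.lower y (y + δ) (max (g y - ε / 2) 0) hy (by linarith [hδ.1])
    (le_max_right _ _) (fun u hu => max_le (by linarith [(abs_lt.1 (hb u hu)).1]) (hg.nonneg u))
  have e3 : (g y - ε / 2) * (y + δ - y) ≤ max (g y - ε / 2) 0 * (y + δ - y) :=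
    mul_le_mul_of_nonneg_right (le_max_left _ _) (by linarith [hδ.1])
  rw [Real.dist_eq, abs_lt]
  constructor
  · rw [lt_sub_iff_add_lt, lt_div_iff₀ hδ.1]
    nlinarith [hδ.1]
  · rw [sub_lt_iff_lt_add, div_lt_iff₀ hδ.1]
    nlinarith [hδ.1]

omit h in
lemma tend_left {y : ℝ} (hy : 0 < y) :
    Tendsto (fun δ => P.real {ω | X I (Ici 1) ω ∈ Ico (y - δ) y} / δ) (𝓝[>] 0) (𝓝 (g y)) := by
  rw [Metric.tendsto_nhds]
  intro ε hε
  obtain ⟨η, hη, hcont⟩ := Metric.continuousAt_iff.1 (hg.cont y hy) (ε / 2) (by positivity)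
  have h1 : ∀ᶠ δ in 𝓝[>] (0 : ℝ), δ ∈ Ioo 0 (min η y) := Ioo_mem_nhdsGT (lt_min hη hy)
  filter_upwards [h1] with δ hδ
  have hδη : δ < η := hδ.2.trans_le (min_le_left _ _)
  have hδy : δ < y := hδ.2.trans_le (min_le_right _ _)
  have hb : ∀ u ∈ Ico (y - δ) y, |g u - g y| < ε / 2 := by
    intro u hu
    have := @hcont u (by rw [Real.dist_eq, abs_lt]; constructor <;> linarith [hu.1, hu.2, hδ.1])
    rwa [Real.dist_eq] at this
  have e1 := hg.upper (y - δ) y (g y + ε / 2) (by linarith) (by linarith [hδ.1])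
    (by linarith [hg.nonneg y]) (fun u hu => by linarith [(abs_lt.1 (hb u hu)).2])
  have e2 := hg.lower (y - δ) y (max (g y - ε / 2) 0) (by linarith) (by linarith [hδ.1])
    (le_max_right _ _) (fun u hu => max_le (by linarith [(abs_lt.1 (hb u hu)).1]) (hg.nonneg u))
  have e3 : (g y - ε / 2) * (y - (y - δ)) ≤ max (g y - ε / 2) 0 * (y - (y - δ)) :=
    mul_le_mul_of_nonneg_right (le_max_left _ _) (by linarith [hδ.1])
  rw [Real.dist_eq, abs_lt]
  constructor
  · rw [lt_sub_iff_add_lt, lt_div_iff₀ hδ.1]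
    nlinarith [hδ.1]
  · rw [sub_lt_iff_lt_add, div_lt_iff₀ hδ.1]
    nlinarith [hδ.1]

omit hg in
lemma key_split (a b : ℝ) : P.real {ω | X I (Ici 1) ω ∈ Ico a b} =
    1 / 2 * P.real {ω | X I (Ici 2) ω ∈ Ico (a - 1 / 2) (b - 1 / 2)} +
    1 / 2 * P.real {ω | X I (Ici 2) ω ∈ Ico a b} := by
  have h2 : insert 1 (Ici 2) = (Ici 1 : Set ℕ) := by
    ext n
    simp only [mem_insert_iff, mem_Ici]
    omega
  have h1 := split h (A := Ici 2) (n := 1) (by simp) (measurableSet_Ico (a := a) (b := b))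
  rw [h2] at h1
  rw [h1]
  have h0 : (((1 : ℕ) : ℝ) + 1) = 2 := by norm_num
  rw [h0]
  have h3 : {ω | X I (Ici 2) ω + 1 / 2 ∈ Ico a b} =
      {ω | X I (Ici 2) ω ∈ Ico (a - 1 / 2) (b - 1 / 2)} := by
    ext ω
    simp only [mem_Ico, Set.mem_ofPred_eq]
    constructor
    · rintro ⟨h4, h5⟩; exact ⟨by linarith, by linarith⟩
    · rintro ⟨h4, h5⟩; exact ⟨by linarith, by linarith⟩
  rw [h3]
  norm_num

omit hg in
lemma sd_rel (y δ : ℝ) : sd P (X I (Ici 1)) y δ =
    1 / 2 * sd P (X I (Ici 2)) (y - 1 / 2) δ + 1 / 2 * sd P (X I (Ici 2)) y δ := by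
  unfold sd
  rw [key_split h y (y + δ), key_split h (y - δ) y]
  have e1 : y + δ - 1 / 2 = y - 1 / 2 + δ := by ring
  have e2 : y - δ - 1 / 2 = y - 1 / 2 - δ := by ring
  rw [e1, e2]
  ring

lemma sd_alt (m : ℕ) : Tendsto (fun δ => sd P (X I (Ici 2)) ((m : ℝ) / 2) δ / δ -
    (-1) ^ m * (sd P (X I (Ici 2)) 0 δ / δ)) (𝓝[>] 0) (𝓝 0) := by
  induction m with
  | zero => simp
  | succ m ih =>
    have hy : (0 : ℝ) < ((m + 1 : ℕ) : ℝ) / 2 := by positivity
    have h1 := (tend_right hg hy).sub (tend_left hg hy)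
    rw [sub_self] at h1
    have h2 := (h1.const_mul 2).sub ih
    simp only [mul_zero, sub_zero] at h2
    refine h2.congr fun δ => ?_
    have h3 := sd_rel h (((m + 1 : ℕ) : ℝ) / 2) δ
    have h4 : ((m + 1 : ℕ) : ℝ) / 2 - 1 / 2 = (m : ℝ) / 2 := by push_cast; ring
    rw [h4] at h3
    have h5 : P.real {ω | X I (Ici 1) ω ∈ Ico (((m + 1 : ℕ) : ℝ) / 2) (((m + 1 : ℕ) : ℝ) / 2 + δ)} / δ -
        P.real {ω | X I (Ici 1) ω ∈ Ico (((m + 1 : ℕ) : ℝ) / 2 - δ) (((m + 1 : ℕ) : ℝ) / 2)} / δ =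
        sd P (X I (Ici 1)) (((m + 1 : ℕ) : ℝ) / 2) δ / δ := by
      unfold sd; ring
    rw [h5, h3, pow_succ]
    ring

lemma g_large (k : ℕ) (hk : 1 ≤ k) : 1 / 6 ≤ g k := by
  have hprob := h.prob
  have hk0 : (0 : ℝ) < k := by exact_mod_cast hk
  have h1 := sd_alt h hg (2 * k)
  have h2 : ((2 * k : ℕ) : ℝ) / 2 = k := by push_cast; ring
  rw [h2] at h1
  have h3 : ((-1 : ℝ)) ^ (2 * k) = 1 := by rw [pow_mul]; norm_num
  rw [h3] at h1
  simp only [one_mul] at h1
  have h4 := ((tend_right hg hk0).const_mul 2).sub h1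
  rw [sub_zero] at h4
  have h5 : ∀ᶠ δ in 𝓝[>] (0 : ℝ), 1 / 3 ≤ 2 * (P.real {ω | X I (Ici 1) ω ∈ Ico (k : ℝ) (k + δ)} / δ) -
      (sd P (X I (Ici 2)) k δ / δ - sd P (X I (Ici 2)) 0 δ / δ) := by
    have h6 : ∀ᶠ δ in 𝓝[>] (0 : ℝ), δ ∈ Ioo (0 : ℝ) 1 := Ioo_mem_nhdsGT one_pos
    filter_upwards [h6] with δ hδ
    have e1 := lower h hδ.1 hδ.2
    have e2 : P.real {ω | X I (Ici 2) ω ∈ Ico (0 - δ) 0} = 0 := by
      have : {ω | X I (Ici 2) ω ∈ Ico (0 - δ) 0} = ∅ := by
        ext ω
        simp only [mem_Ico, Set.mem_ofPred_eq, mem_empty_iff_false, iff_false]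
        rintro ⟨_, h8⟩
        have := X_nonneg h (Ici 2) ω
        linarith
      rw [this]; simp
    have e3 : δ / 3 ≤ sd P (X I (Ici 2)) 0 δ := by
      unfold sd
      rw [e2, zero_add, sub_zero]
      exact e1
    have e4 : sd P (X I (Ici 2)) k δ ≤ 2 * P.real {ω | X I (Ici 1) ω ∈ Ico (k : ℝ) (k + δ)} := by
      have h1' := key_split h (k : ℝ) (k + δ)
      have h3' : 0 ≤ P.real {ω | X I (Ici 2) ω ∈ Ico ((k : ℝ) - δ) k} := measureReal_nonneg
      have h4' : 0 ≤ P.real {ω | X I (Ici 2) ω ∈ Ico ((k : ℝ) - 1 / 2) (k + δ - 1 / 2)} :=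
        measureReal_nonneg
      unfold sd
      linarith
    have e5 : 1 / 3 ≤ sd P (X I (Ici 2)) 0 δ / δ := by
      rw [le_div_iff₀ hδ.1]; linarith
    have e6 : sd P (X I (Ici 2)) k δ / δ ≤
        2 * (P.real {ω | X I (Ici 1) ω ∈ Ico (k : ℝ) (k + δ)} / δ) := by
      rw [mul_div_assoc']
      exact div_le_div_of_nonneg_right e4 hδ.1.le
    linarith
  have h6 := ge_of_tendsto h4 h5
  linarith

lemma g_ineq {y M : ℝ} (hy : 2 ≤ y) (hM : ∀ u ∈ Icc 1 y, g u ≤ M) : y * g y ≤ M := by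
  have hprob := h.prob
  have hM0 : 0 ≤ M := (hg.nonneg y).trans (hM y ⟨by linarith, le_rfl⟩)
  have h1 : Tendsto (fun δ => (y - δ) * (P.real {ω | X I (Ici 1) ω ∈ Ico (y - δ) y} / δ))
      (𝓝[>] 0) (𝓝 ((y - 0) * g y)) := by
    refine Tendsto.mul ?_ (tend_left hg (by linarith))
    exact (tendsto_const_nhds.sub tendsto_id).mono_left nhdsWithin_le_nhds
  rw [sub_zero] at h1
  refine le_of_tendsto h1 ?_
  have h6 : ∀ᶠ δ in 𝓝[>] (0 : ℝ), δ ∈ Ioo (0 : ℝ) (1 / 2) := Ioo_mem_nhdsGT (by norm_num)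
  filter_upwards [h6] with δ hδ
  rw [mul_div_assoc', div_le_iff₀ hδ.1]
  refine size_bias h measurableSet_Ico (b := y - δ) (c := M * δ) (fun x hx => hx.1)
    (by linarith [hδ.2]) (mul_nonneg hM0 hδ.1.le) fun n hn => ?_
  have hn0 : (1 : ℝ) ≤ n := by exact_mod_cast hn
  have h7 : 1 / ((n : ℝ) + 1) ≤ 1 / 2 := one_div_le_one_div_of_le (by norm_num) (by linarith)
  have h8 : 0 < 1 / ((n : ℝ) + 1) := by positivity
  have h9 : {ω | X I (Ici 1) ω + 1 / ((n : ℝ) + 1) ∈ Ico (y - δ) y} =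
      {ω | X I (Ici 1) ω ∈ Ico (y - 1 / ((n : ℝ) + 1) - δ) (y - 1 / ((n : ℝ) + 1))} := by
    ext ω
    simp only [mem_Ico, Set.mem_ofPred_eq]
    constructor
    · rintro ⟨h4, h5⟩; constructor <;> linarith
    · rintro ⟨h4, h5⟩; constructor <;> linarith
  rw [h9]
  have h10 := hg.upper (y - 1 / ((n : ℝ) + 1) - δ) (y - 1 / ((n : ℝ) + 1)) M
    (by linarith [hδ.2]) (by linarith [hδ.1]) hM0 (fun u hu => hM u ⟨by linarith [hu.1, hδ.2],
      by linarith [hu.2]⟩)
  have h11 : y - 1 / ((n : ℝ) + 1) - (y - 1 / ((n : ℝ) + 1) - δ) = δ := by ring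
  rwa [h11] at h10

theorem contra : False := by
  have hcont : ContinuousOn g (Icc 1 3) := fun u hu =>
    (hg.cont u (by linarith [hu.1])).continuousWithinAt
  obtain ⟨z0, _, hz0⟩ := isCompact_Icc.exists_isMaxOn ⟨1, by norm_num, by norm_num⟩ hcont
  -- `g ≤ g z0` on `[1,∞)`
  have hall : ∀ y, 1 ≤ y → g y ≤ g z0 := by
    intro y hy
    rcases le_or_gt y 3 with hy3 | hy3
    · exact hz0 ⟨hy, hy3⟩
    · have hc : ContinuousOn g (Icc 1 y) := fun u hu =>
        (hg.cont u (by linarith [hu.1])).continuousWithinAt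
      obtain ⟨z, hz, hzmax⟩ := isCompact_Icc.exists_isMaxOn ⟨1, le_rfl, by linarith⟩ hc
      have h1 : g y ≤ g z := hzmax ⟨hy, le_rfl⟩
      rcases le_or_gt z 3 with hz3 | hz3
      · exact h1.trans (hz0 ⟨hz.1, hz3⟩)
      · have h2 := g_ineq h hg (y := z) (M := g z) (by linarith)
          (fun u hu => hzmax ⟨hu.1, hu.2.trans hz.2⟩)
        have h3 := hg.nonneg z
        have h4 : g z ≤ 0 := by nlinarith
        exact (h1.trans h4).trans (hg.nonneg z0)
  obtain ⟨k, hk⟩ := exists_nat_gt (max 2 (6 * g z0))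
  have hk2 : (2 : ℝ) < k := lt_of_le_of_lt (le_max_left _ _) hk
  have hk6 : 6 * g z0 < k := lt_of_le_of_lt (le_max_right _ _) hk
  have h1 := g_ineq h hg (y := k) (M := g z0) hk2.le (fun u hu => hall u hu.1)
  have h2 := g_large h hg k (by
    have : (1 : ℝ) ≤ k := by linarith
    exact_mod_cast this)
  nlinarith

end

/-! ### The final statement -/

lemma ae_eq (h : Rec P I) : ∀ᵐ ω ∂P, X I univ ω = 1 + X I (Ici 1) ω := by
  have hprob := h.prob
  have h1 : ∀ᵐ ω ∂P, I 0 ω = 1 := by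
    have h2 := h.one 0
    have hms : MeasurableSet {ω | I 0 ω = 1} := h.meas 0 (measurableSet_singleton 1)
    have h3 : P.real {ω | I 0 ω = 1}ᶜ = 0 := by
      rw [probReal_compl_eq_one_sub hms, h2]; norm_num
    rw [measureReal_def, ENNReal.toReal_eq_zero_iff] at h3
    have h4 := h3.resolve_right (measure_ne_top _ _)
    rw [measure_eq_zero_iff_ae_notMem] at h4
    filter_upwards [h4] with ω hω
    simpa using hω
  filter_upwards [aesum h, h1] with ω hs hω
  have hun : insert 0 (Ici 1) = (univ : Set ℕ) := by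
    ext n
    simp only [mem_insert_iff, mem_Ici, mem_univ, iff_true]
    omega
  have h5 := X_insert hs (A := Ici 1) (n := 0) (by simp)
  rw [hun, hω] at h5
  rw [h5]
  norm_num

lemma real_eq (h : Rec P I) (a b : ℝ) : P.real {ω | X I (Ici 1) ω ∈ Ico a b} =
    (P.map (X I univ)).real (Ico (1 + a) (1 + b)) := by
  rw [map_measureReal_apply (meas_X h _) measurableSet_Ico]
  refine measureReal_congr ?_
  filter_upwards [ae_eq h] with ω hω
  simp only [eq_iff_iff]
  change X I (Ici 1) ω ∈ Ico a b ↔ X I univ ω ∈ Ico (1 + a) (1 + b)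
  rw [hω]
  simp only [mem_Ico]
  constructor
  · rintro ⟨h6, h7⟩; exact ⟨by linarith, by linarith⟩
  · rintro ⟨h6, h7⟩; exact ⟨by linarith, by linarith⟩

lemma dens_of (h : Rec P I) {f : ℝ → ℝ}
    (hf : P.map (X I univ) = volume.withDensity (fun x => ENNReal.ofReal (f x)))
    (hc : ∀ x, 1 < x → ContinuousAt f x) : Dens P I (fun u => max (f (1 + u)) 0) := by
  have hprob := h.prob
  have hpm : IsProbabilityMeasure (P.map (X I univ)) :=
    Measure.isProbabilityMeasure_map (meas_X h _).aemeasurable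
  have hval : ∀ a b : ℝ, P.map (X I univ) (Ico (1 + a) (1 + b)) =
      ∫⁻ x in Ico (1 + a) (1 + b), ENNReal.ofReal (f x) := by
    intro a b
    rw [hf, withDensity_apply _ measurableSet_Ico]
  refine ⟨fun u => le_max_right _ _, fun u hu => ?_, ?_, ?_⟩
  · have h1 : ContinuousAt (fun u => f (1 + u)) u :=
      ContinuousAt.comp (f := fun u => 1 + u) (g := f) (hc (1 + u) (by linarith))
        (continuous_const.add continuous_id).continuousAt
    exact h1.max continuousAt_const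
  · intro a b M _ hab hM hle
    rw [real_eq h, measureReal_def, hval]
    have h1 : ∫⁻ x in Ico (1 + a) (1 + b), ENNReal.ofReal (f x) ≤
        ∫⁻ x in Ico (1 + a) (1 + b), ENNReal.ofReal M := by
      refine setLIntegral_mono' measurableSet_Ico fun x hx => ENNReal.ofReal_le_ofReal ?_
      have := hle (x - 1) ⟨by linarith [hx.1], by linarith [hx.2]⟩
      have h2 : 1 + (x - 1) = x := by ring
      rw [h2] at this
      exact (le_max_left _ _).trans this
    rw [setLIntegral_const, Real.volume_Ico, ← ENNReal.ofReal_mul hM] at h1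
    have h2 := ENNReal.toReal_mono ENNReal.ofReal_ne_top h1
    rw [ENNReal.toReal_ofReal (mul_nonneg hM (by linarith))] at h2
    refine h2.trans (le_of_eq ?_)
    ring
  · intro a b m _ hab hm hle
    rw [real_eq h, measureReal_def]
    have h1 : ∫⁻ x in Ico (1 + a) (1 + b), ENNReal.ofReal m ≤
        ∫⁻ x in Ico (1 + a) (1 + b), ENNReal.ofReal (f x) := by
      refine setLIntegral_mono' measurableSet_Ico fun x hx => ?_
      have := hle (x - 1) ⟨by linarith [hx.1], by linarith [hx.2]⟩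
      have h2 : 1 + (x - 1) = x := by ring
      rw [h2] at this
      rcases le_total (f x) 0 with h3 | h3
      · rw [max_eq_right h3] at this
        rw [ENNReal.ofReal_of_nonpos this]
        exact bot_le
      · rw [max_eq_left h3] at this
        exact ENNReal.ofReal_le_ofReal this
    rw [setLIntegral_const, Real.volume_Ico, ← ENNReal.ofReal_mul hm, ← hval] at h1
    have h2 := ENNReal.toReal_mono (measure_ne_top _ _) h1
    rw [ENNReal.toReal_ofReal (mul_nonneg hm (by linarith))] at h2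
    refine le_trans (le_of_eq ?_) h2
    ring

/-- Every version of the density of the record harmonic series is discontinuous at some point of
`(1,∞)`. -/
theorem result {Ω : Type*} [MeasurableSpace Ω] (P : Measure Ω) [IsProbabilityMeasure P]
    (I : ℕ → Ω → ℝ) (hmeas : ∀ n, Measurable (I n)) (hval : ∀ n ω, I n ω = 0 ∨ I n ω = 1)
    (hindep : iIndepFun I P)
    (hone : ∀ n : ℕ, P.real {ω | I n ω = 1} = 1 / ((n : ℝ) + 1))
    (μ : Measure ℝ) (hμ : μ = P.map fun ω => ∑' n : ℕ, I n ω / ((n : ℝ) + 1)) :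
    μ ≪ volume ∧ ∀ f : ℝ → ℝ, f =ᵐ[volume] (fun x => (μ.rnDeriv volume x).toReal) →
      ∃ x, 1 < x ∧ ¬ ContinuousAt f x := by
  have h : Rec P I := ⟨inferInstance, hmeas, hval, hindep, hone⟩
  have hX : (fun ω => ∑' n : ℕ, I n ω / ((n : ℝ) + 1)) = X I univ := by
    funext ω; simp [X]
  have hac : μ ≪ volume := by
    refine Measure.AbsolutelyContinuous.mk fun A hA h0 => ?_
    have := MP_5a22fd_pr.BoundedDensity.result P I hmeas hval hindep hone A hA
    rw [← hμ, h0, mul_zero] at this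
    exact le_antisymm this bot_le
  refine ⟨hac, fun f hf => ?_⟩
  by_contra hcon
  push Not at hcon
  rw [hX] at hμ
  have hpm : IsProbabilityMeasure μ := by
    rw [hμ]
    exact Measure.isProbabilityMeasure_map (meas_X h _).aemeasurable
  have hd : P.map (X I univ) = volume.withDensity (fun x => ENNReal.ofReal (f x)) := by
    rw [← hμ, ← Measure.withDensity_rnDeriv_eq μ volume hac]
    refine withDensity_congr_ae ?_
    filter_upwards [hf, Measure.rnDeriv_lt_top μ volume] with x hx hlt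
    rw [hx, ENNReal.ofReal_toReal hlt.ne]
  exact contra h (dens_of h hd hcon)

end Pool.Agent.Results.MP_37d573_pr.AlwaysDiscontinuous
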